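import Mathlib
import Pool.Agent.Y802.VG.Rep
import Pool.Agent.Y38.TS.Nil

/-!
# MP_722186_nt: counterexamples without linear representations, ordered like the subsets of `ℕ`

There are a real quadratic field `K` and, for all subsets `A` of `ℕ`, Galois extensions `L A / K` which
are infinite, unramified at all finite primes and totally real, with pro-2 Galois groups, such that
`L B ⊆ L A` if and only if `A ⊆ B`, and such that for every `A`:

* every open subgroup `U` of `Gal(L A / K)` has `d(U)` finite and `r(U)` infinite (so that `L A` is a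
  counterexample to the virtual Golod-Shafarevich conjecture, Q1);
* every continuous representation of every open subgroup of `Gal(L A / K)` over a Noetherian local ring
  with finite residue field (of any characteristic) has finite image.

The first part for one field is due to helper718 (`NotVirtuallyGS` in the starting repository), whose
cohomological blocks (`H718R3`) are used here.  The new blocks are in `Pool.Agent.Y802.VG`: the relations
killed in the maximal tower are chosen close to powers of Frobenius elements which approximate all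
elements of the absolute Galois group of `ℚ`, so that representations of open subgroups have finite image
by a theorem on unipotent images of Frobenius elements (`Pool.Agent.Y802.TS`), and they are chosen
independent for all sets of indices at once.

Blocks of the proof: helpers 38, 487, 718, 759, 800, 802.
-/

set_option autoImplicit false

open NumberField IsDedekindDomain Module

namespace Pool.Agent.Results.MP_722186_nt.NoLinearRepresentations

section cohomology

variable (p : ℕ) (G : Type) [Group G] [TopologicalSpace G]

/-- `H¹(G, F_p)` for the trivial action: the continuous homomorphisms from `G` to `F_p` (a map to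
the discrete set `F_p` is continuous iff it is locally constant). -/
def H1 : Submodule (ZMod p) (G → ZMod p) where
  carrier := {f | IsLocallyConstant f ∧ ∀ g h, f (g * h) = f g + f h}
  add_mem' := by
    rintro a b ⟨ha, ha'⟩ ⟨hb, hb'⟩
    refine ⟨ha.add hb, fun g h => ?_⟩
    simp only [Pi.add_apply, ha', hb']
    ring
  zero_mem' := ⟨IsLocallyConstant.const 0, fun g h => by simp⟩
  smul_mem' := by
    rintro c a ⟨ha, ha'⟩
    refine ⟨ha.comp fun t => c • t, fun g h => ?_⟩
    simp only [Pi.smul_apply, ha', smul_eq_mul]
    ring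

/-- Continuous 2-cocycles of `G` with values in `F_p` (trivial action). -/
def Z2 : Submodule (ZMod p) (G → G → ZMod p) where
  carrier := {c | IsLocallyConstant (fun x : G × G => c x.1 x.2) ∧
    ∀ g h l, c g h + c (g * h) l = c h l + c g (h * l)}
  add_mem' := by
    rintro a b ⟨ha, ha'⟩ ⟨hb, hb'⟩
    refine ⟨ha.add hb, fun g h l => ?_⟩
    simp only [Pi.add_apply]
    linear_combination ha' g h l + hb' g h l
  zero_mem' := ⟨IsLocallyConstant.const 0, fun g h l => by simp⟩
  smul_mem' := by
    rintro c a ⟨ha, ha'⟩
    refine ⟨ha.comp fun t => c • t, fun g h l => ?_⟩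
    simp only [Pi.smul_apply, smul_eq_mul]
    linear_combination c * ha' g h l

/-- Continuous 2-coboundaries of `G` with values in `F_p` (trivial action). -/
def B2 : Submodule (ZMod p) (G → G → ZMod p) where
  carrier := {c | ∃ u : G → ZMod p, IsLocallyConstant u ∧ ∀ g h, c g h = u g + u h - u (g * h)}
  add_mem' := by
    rintro a b ⟨u, hu, hu'⟩ ⟨v, hv, hv'⟩
    refine ⟨u + v, hu.add hv, fun g h => ?_⟩
    simp only [Pi.add_apply, hu', hv']
    ring
  zero_mem' := ⟨0, IsLocallyConstant.const 0, fun g h => by simp⟩
  smul_mem' := by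
    rintro c a ⟨u, hu, hu'⟩
    refine ⟨c • u, hu.comp fun t => c • t, fun g h => ?_⟩
    simp only [Pi.smul_apply, hu', smul_eq_mul]
    ring

/-- `H²(G, F_p)`: continuous 2-cocycles modulo continuous 2-coboundaries (trivial action). -/
abbrev H2 : Type := Z2 p G ⧸ (B2 p G).submoduleOf (Z2 p G)

/-- A profinite group is pro-`p` iff all its open normal subgroups have `p`-power index. -/
def IsProP : Prop := ∀ V : Subgroup G, V.Normal → IsOpen (V : Set G) → ∃ n : ℕ, V.index = p ^ n

/-- `d(G) < ∞`: the space `H¹(G, F_p)` is finite-dimensional over `F_p`. -/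
def FiniteD : Prop := Module.Finite (ZMod p) (H1 p G)

/-- `r(G) < ∞`: the space `H²(G, F_p)` is finite-dimensional over `F_p`. -/
def FiniteR : Prop := Module.Finite (ZMod p) (H2 p G)

end cohomology

/-- The prime `P` of the number field `E` lies over the prime `v` of `K` and is ramified:
`v 𝓞_E ⊆ P²`. -/
def RamifiedOver (K E : Type) [Field K] [Field E] [Algebra K E] (v : Ideal (𝓞 K))
    (P : Ideal (𝓞 E)) : Prop :=
  P.comap (algebraMap (𝓞 K) (𝓞 E)) = v ∧ v.map (algebraMap (𝓞 K) (𝓞 E)) ≤ P ^ 2

/-- The finite prime `v` of `K` ramifies in the algebraic extension `L/K`: in some finite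
subextension `E/K` there is a nonzero prime `P` over `v` with `v 𝓞_E ⊆ P²`. -/
def Ramifies (K L : Type) [Field K] [NumberField K] [Field L] [Algebra K L]
    (v : HeightOneSpectrum (𝓞 K)) : Prop :=
  ∃ E : IntermediateField K L, FiniteDimensional K E ∧ ∃ P : Ideal (𝓞 E), P.IsPrime ∧ P ≠ ⊥ ∧
    RamifiedOver K E v.asIdeal P

/-- The extensions `L/K` of the problem: `L/K` is Galois, `Gal(L/K)` is an infinite pro-`p` group,
only finitely many primes of `K` ramify in `L`, and none of them lies above `p`. -/
structure TameExt (p : ℕ) (K L : Type) [Field K] [NumberField K] [Field L] [Algebra K L] :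
    Prop where
  galois : IsGalois K L
  infinite : Infinite Gal(L/K)
  prop : IsProP p Gal(L/K)
  finite : {v : HeightOneSpectrum (𝓞 K) | Ramifies K L v}.Finite
  tame : ∀ v : HeightOneSpectrum (𝓞 K), Ramifies K L v → (p : 𝓞 K) ∉ v.asIdeal

/-- `L/K` is unramified at all finite primes of `K` and all complex embeddings of `L` are real. -/
def UnramifiedReal (K L : Type) [Field K] [NumberField K] [Field L] [Algebra K L] : Prop :=
  (∀ v : HeightOneSpectrum (𝓞 K), ¬ Ramifies K L v) ∧ ∀ (φ : L →+* ℂ) (x : L), (φ x).im = 0

/-- Every open subgroup `U` of `G` has `d(U)` finite and `r(U)` infinite. -/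
def AllOpenRInfinite (p : ℕ) (G : Type) [Group G] [TopologicalSpace G] : Prop :=
  ∀ U : Subgroup G, IsOpen (U : Set G) → FiniteD p U ∧ ¬ FiniteR p U

/-- `K` is quadratic over `ℚ`, `L/K` is an extension as in the problem for `p = 2`, it is moreover
unramified at all finite primes and totally real, and every open subgroup `U` of `Gal(L/K)` (with
its Krull topology) has `d(U)` finite and `r(U)` infinite. -/
def Counterexample (K L : Type) [Field K] [NumberField K] [Field L] [Algebra K L] : Prop :=
  finrank ℚ K = 2 ∧ TameExt 2 K L ∧ UnramifiedReal K L ∧ AllOpenRInfinite 2 Gal(L/K)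

section bridge

variable {G : Type} [Group G] [TopologicalSpace G] [IsTopologicalGroup G] [CompactSpace G]

theorem H1_eq (hB : H718R3.Basis1 G) : H1 2 G = H718R3.Hm G := by
  ext f
  exact and_congr (H718R3.mem_LC_iff hB f).symm Iff.rfl

theorem Z2_eq (hB : H718R3.Basis1 G) : Z2 2 G = H718R3.Z2f G := by
  ext c
  exact and_congr (H718R3.inv_two_iff hB c).symm Iff.rfl

theorem B2_eq (hB : H718R3.Basis1 G) : B2 2 G = H718R3.B2f G := by
  ext c
  constructor
  · rintro ⟨u, hu, hu'⟩
    exact ⟨u, (H718R3.mem_LC_iff hB u).mpr hu, hu'⟩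
  · rintro ⟨u, hu, hu'⟩
    exact ⟨u, (H718R3.mem_LC_iff hB u).mp hu, hu'⟩

end bridge

/-- Every continuous representation `ρ : U → GL_n(R)` of every open subgroup `U` of `G` over a
Noetherian local ring `R` with finite residue field and the topology of its maximal ideal has finite
image. -/
def LinearFinite (G : Type) [Group G] [TopologicalSpace G] : Prop :=
  ∀ U : Subgroup G, IsOpen (U : Set G) →
    ∀ (R : Type) [CommRing R] [IsLocalRing R] [IsNoetherianRing R] [TopologicalSpace R],
      IsAdic (IsLocalRing.maximalIdeal R) → Finite (IsLocalRing.ResidueField R) →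
      ∀ (n : ℕ) (ρ : U →* GL (Fin n) R), Continuous ρ → (Set.range ρ).Finite

/-- a local ring with finite residue field has a prime number in its maximal ideal -/
theorem exists_prime_mem (R : Type) [CommRing R] [IsLocalRing R]
    (hfin : Finite (IsLocalRing.ResidueField R)) :
    ∃ p : ℕ, p.Prime ∧ (p : R) ∈ IsLocalRing.maximalIdeal R := by
  obtain ⟨p, hp⟩ := CharP.exists (IsLocalRing.ResidueField R)
  have hpr : p.Prime := by
    have := CharP.char_is_prime (IsLocalRing.ResidueField R) p
    exact this
  refine ⟨p, hpr, ?_⟩
  rw [← IsLocalRing.residue_eq_zero_iff, map_natCast]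
  exact CharP.cast_eq_zero _ p

/-- **Main theorem**. There are a real quadratic field `K` and, for all subsets `A` of `ℕ`, Galois
extensions `L A / K` which are infinite, pro-2, unramified at all finite primes and totally real, such
that `L B ⊆ L A` if and only if `A ⊆ B`, such that every open subgroup `U` of `Gal(L A / K)` has
`d(U) = dim H¹(U, F_2)` finite and `r(U) = dim H²(U, F_2)` infinite, and such that every continuous
representation of every such `U` over a Noetherian local ring with finite residue field has finite
image. -/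
theorem result : ∃ (K : Type) (_ : Field K) (_ : NumberField K)
    (L : Set ℕ → IntermediateField K (AlgebraicClosure K)),
    (∀ A B, L B ≤ L A ↔ A ⊆ B) ∧ ∀ A, Counterexample K (L A) ∧ LinearFinite Gal(L A/K) := by
  obtain ⟨k, i1, i2, M, L, e, T, hk, hM, hL, hord, -, -, hrep⟩ :=
    Pool.Agent.Y802.VG.vg_main (Pool.Agent.Y38.TS.t_NIL Pool.Agent.Y759.TS.t_KOL) id
  refine ⟨k, i1, i2, L, hord, fun A => ?_⟩
  obtain ⟨hLM, hgal, hinf, hpro, hU, -⟩ := hL A
  have hunr : ∀ v : HeightOneSpectrum (𝓞 k), ¬ Ramifies k (L A) v := by
    rintro v ⟨E, hE, P, hP, hP0, hPv, hram⟩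
    have : NumberField E := H718R3.NT.nf_of_fin E
    exact H718R3.NT.not_ram P hP hP0 v hPv (H718R3.NT.unr_sub M hM (L A) hLM E) hram
  refine ⟨⟨hk, ⟨hgal, hinf, ?_, ?_, fun v hv => absurd hv (hunr v)⟩,
    ⟨hunr, fun φ x => H718R3.NT.real_sub M hM (L A) hLM φ x⟩, ?_⟩, ?_⟩
  · intro V hVn hVo
    exact hpro V ⟨hVn, hVo⟩
  · have : {v : HeightOneSpectrum (𝓞 k) | Ramifies k (L A) v} = ∅ := by
      ext v
      simp [hunr v]
    rw [this]
    exact Set.finite_empty
  · intro U hUo
    obtain ⟨h1, h2⟩ := hU U hUo
    have hB : H718R3.Basis1 U := H718R3.Basis1.sub H718R3.NT.basis1 U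
    have hc : CompactSpace U := isCompact_iff_compactSpace.mp
      (Subgroup.isClosed_of_isOpen U hUo).isCompact
    unfold FiniteD FiniteR H2
    rw [H1_eq hB, Z2_eq hB, B2_eq hB]
    exact ⟨Module.Finite.of_finite, h2⟩
  · intro U hUo R _ _ _ _ hR hfin n ρ hρ
    obtain ⟨p, hp, hpR⟩ := exists_prime_mem R hfin
    exact hrep A U hUo p hp R hR hfin hpR n ρ hρ

end Pool.Agent.Results.MP_722186_nt.NoLinearRepresentations
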